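import Pool.Agent.MP_3ee8cb_gt.DNTR.Fin
import Pool.Agent.MP_3ee8cb_gt.DNGA.Pol
import Pool.Agent.MP_3ee8cb_gt.DNWI.Base

/-! Jacobi fields in a pinched space: comparison with constant curvature. -/

namespace Pool.Agent.MP_3ee8cb_gt.DZH

open DN (Dim dm)

variable [Dim]

open DN Set Real
open scoped RealInnerProductSpace

omit [Dim] in
theorem gron {N N' : ℝ → ℝ} {c φ t : ℝ} (hd : ∀ s, HasDerivAt N (N' s) s) (hc : 0 ≤ c)
    (hφ : 0 ≤ φ) (h0 : 0 ≤ N 0) (hl : ∀ s ∈ Icc (0 : ℝ) 1, N' s ≤ c * N s + φ)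
    (ht : t ∈ Icc (0 : ℝ) 1) : N t ≤ exp c * (N 0 + φ) := by
  have he : ∀ s, HasDerivAt (fun s => exp (-(c * s))) (exp (-(c * s)) * -c) s :=
    fun s => by simpa using ((hasDerivAt_id s).const_mul c).neg.exp
  have h1 := DNTR.le_of_der (c := φ) (fun s => (hd s).mul (he s)) (fun s hs => by
    have e1 : exp (-(c * s)) ≤ 1 := exp_le_one_iff.2 (by nlinarith [hs.1])
    nlinarith [mul_le_mul_of_nonneg_right (hl s hs) (exp_pos (-(c * s))).le,
      mul_le_mul_of_nonneg_left e1 hφ]) ht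
  simp only [Pi.mul_apply, mul_zero, neg_zero, exp_zero, mul_one] at h1
  have e2 : exp (c * t) ≤ exp c := exp_le_exp.2 (by nlinarith [ht.2])
  have e3 : N t = exp (c * t) * (N t * exp (-(c * t))) := by
    rw [mul_left_comm, ← exp_add, add_neg_cancel, exp_zero, mul_one]
  have e4 : φ * t ≤ φ := by nlinarith [ht.2]
  rw [e3]
  exact (mul_le_mul_of_nonneg_left (h1.trans (by linarith)) (exp_pos _).le).trans
    (mul_le_mul_of_nonneg_right e2 (by linarith))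

/-- A pinched Hadamard space in frames. -/
structure PW (m : MF) (lg : V × V → V) (δ : ℝ) : Prop where
  ok : m.OK
  jac : m.Jac
  had : m.Had lg
  d0 : 0 ≤ δ
  d1 : δ ≤ 1
  u0 : m.Up 0
  u1 : m.Up 1
  dn : m.Dn (1 + δ)

variable {m : MF} {lg : V × V → V} {δ : ℝ}

theorem cov_inner (ho : m.OK) (z : V × V) {x y : ℝ → V} {F G : V} {t : ℝ}
    (hx : HasDerivAt x (F - m.w z t (x t)) t) (hy : HasDerivAt y (G - m.w z t (y t)) t) :
    HasDerivAt (fun s => ⟪x s, y s⟫) (⟪F, y t⟫ + ⟪x t, G⟫) t := by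
  refine (hx.inner ℝ hy).congr_deriv ?_
  have := ho.skew (m.Z t z).1 (m.R (m.Z t z).1 (m.Z t z).2) (x t) (y t)
  rw [inner_sub_left, inner_sub_right, MF.w]
  linarith

theorem cov_sq (ho : m.OK) (z : V × V) {x : ℝ → V} {F : V} {t : ℝ}
    (hx : HasDerivAt x (F - m.w z t (x t)) t) :
    HasDerivAt (fun s => ‖x s‖ ^ 2) (2 * ⟪x t, F⟫) t := by
  have := cov_inner ho z hx hx
  simp only [real_inner_self_eq_norm_sq] at this
  refine this.congr_deriv ?_
  rw [real_inner_comm]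
  ring

theorem PW.err (h : PW m lg δ) (y x v : V) (hx : ⟪x, v⟫ = 0) :
    ‖m.K y x v v + ‖v‖ ^ 2 • x‖ ≤ 2 * δ * ‖v‖ ^ 2 * ‖x‖ := by
  have := sPOL m 1 (1 + δ) h.ok h.jac h.u1 h.dn y x v v
  rw [hx, zero_smul, sub_zero, one_smul, real_inner_self_eq_norm_sq] at this
  refine this.trans_eq ?_
  ring

/-- A Jacobi field with vanishing derivative, after unit time. -/
theorem PW.jac_one (h : PW m lg δ) {z ξ : V × V} (hz : ‖z.2‖ = 1) (hv : m.ver z ξ = 0)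
    (hp : ⟪m.hor z ξ, z.2⟫ = 0) {O : ℝ → V ≃ₗᵢ[ℝ] V} (O0 : ∀ a, O 0 a = a)
    (O1 : ∀ a t, HasDerivAt (fun s => O s a) (-m.w z t (O t a)) t) :
    ⟪m.J z ξ 1, (m.Z 1 z).2⟫ = 0 ∧
      ‖m.J z ξ 1 - cosh 1 • O 1 (m.hor z ξ)‖ ≤ 2 * exp 4 * δ * ‖m.hor z ξ‖ := by
  have pj : ∀ t, ⟪m.J z ξ t, (m.Z t z).2⟫ = 0 := fun t => by
    rw [DNWI.J_vel h.ok h.jac, hp, hv, inner_zero_left, mul_zero, add_zero]
  refine ⟨pj 1, ?_⟩
  obtain ⟨E, hE⟩ : ∃ E : ℝ → V, E = fun t => -(m.K (m.Z t z).1 (m.J z ξ t) (m.Z t z).2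
    (m.Z t z).2 + m.J z ξ t) := ⟨_, rfl⟩
  have eb : ∀ t, ‖E t‖ ≤ 2 * δ * ‖m.J z ξ t‖ := fun t => by
    have := h.err (m.Z t z).1 _ _ (pj t)
    rw [h.jac.norm, hz, one_pow, one_smul, mul_one] at this
    rw [hE, norm_neg]
    exact this
  have d1 := h.jac.d1 z ξ
  have d2 : ∀ t, HasDerivAt (m.J' z ξ) (m.J z ξ t + E t - m.w z t (m.J' z ξ t)) t := fun t =>
    (h.jac.d2 z ξ t).congr_deriv (by simp only [hE]; abel)
  have o1 : (1 : ℝ) ∈ Icc (0 : ℝ) 1 := right_mem_Icc.2 zero_le_one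
  have b1 : ∀ t ∈ Icc (0 : ℝ) 1, ‖m.J z ξ t‖ ^ 2 ≤ exp 4 * ‖m.hor z ξ‖ ^ 2 := fun t ht => by
    have := gron (c := 4) (φ := 0) (fun s => (cov_sq h.ok z (d1 s)).add (cov_sq h.ok z (d2 s)))
      (by norm_num) le_rfl (by simp only [Pi.add_apply]; positivity) (fun s _ => by
        have a1 := real_inner_le_norm (m.J z ξ s) (m.J' z ξ s)
        have a2 := real_inner_le_norm (m.J' z ξ s) (E s)
        have a3 := mul_le_mul_of_nonneg_left ((eb s).trans (mul_le_mul_of_nonneg_right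
          (mul_le_mul_of_nonneg_left h.d1 zero_le_two) (norm_nonneg _))) (norm_nonneg (m.J' z ξ s))
        rw [inner_add_right, real_inner_comm (m.J z ξ s)]
        simp only [Pi.add_apply]
        nlinarith [sq_nonneg (‖m.J z ξ s‖ - ‖m.J' z ξ s‖)]) ht
    simp only [Pi.add_apply, DNWI.J_zero h.ok, DNWI.J'_zero h.ok, hv, norm_zero] at this
    nlinarith [sq_nonneg ‖m.J' z ξ t‖]
  have du : ∀ t, HasDerivAt (fun s => m.J z ξ s - cosh s • O s (m.hor z ξ))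
      (m.J' z ξ t - sinh t • O t (m.hor z ξ) -
        m.w z t (m.J z ξ t - cosh t • O t (m.hor z ξ))) t := fun t =>
    ((d1 t).sub ((hasDerivAt_cosh t).smul (O1 _ t))).congr_deriv (by
      rw [map_sub, map_smul]
      module)
  have dv : ∀ t, HasDerivAt (fun s => m.J' z ξ s - sinh s • O s (m.hor z ξ))
      (m.J z ξ t - cosh t • O t (m.hor z ξ) + E t -
        m.w z t (m.J' z ξ t - sinh t • O t (m.hor z ξ))) t := fun t =>
    ((d2 t).sub ((hasDerivAt_sinh t).smul (O1 _ t))).congr_deriv (by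
      rw [map_sub, map_smul]
      module)
  have b2 := gron (c := 3) (φ := 4 * δ ^ 2 * (exp 4 * ‖m.hor z ξ‖ ^ 2))
    (fun s => (cov_sq h.ok z (du s)).add (cov_sq h.ok z (dv s))) (by norm_num) (by positivity)
    (by simp only [Pi.add_apply]; positivity) (fun s hs => by
      simp only [Pi.add_apply]
      generalize m.J z ξ s - cosh s • O s (m.hor z ξ) = u
      generalize m.J' z ξ s - sinh s • O s (m.hor z ξ) = v
      have a1 := real_inner_le_norm u v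
      have a2 := real_inner_le_norm v (E s)
      have a3 := pow_le_pow_left₀ (norm_nonneg _) (eb s) 2
      have a4 := mul_le_mul_of_nonneg_left (b1 s hs) (sq_nonneg δ)
      rw [inner_add_right, real_inner_comm u]
      nlinarith [sq_nonneg (‖u‖ - ‖v‖), sq_nonneg (‖v‖ - ‖E s‖), sq_nonneg ‖u‖]) o1
  simp only [Pi.add_apply, DNWI.J_zero h.ok, DNWI.J'_zero h.ok, hv, O0, cosh_zero, sinh_zero,
    one_smul, zero_smul, sub_self, norm_zero] at b2
  refine abs_le_of_sq_le_sq' ?_ (by have := h.d0; positivity) |>.2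
  have e3 : exp 3 ≤ exp 4 := exp_le_exp.2 (by norm_num)
  have := mul_le_mul_of_nonneg_right e3
    (by positivity : 0 ≤ 4 * δ ^ 2 * (exp 4 * ‖m.hor z ξ‖ ^ 2))
  nlinarith [sq_nonneg ‖m.J' z ξ 1 - sinh 1 • O 1 (m.hor z ξ)‖]

/-- The covariant derivative of `lg (·, Q)`. -/
noncomputable def DL (m : MF) (lg : V × V → V) (Q y : V) : V →L[ℝ] V :=
  (fderiv ℝ (fun y => lg (y, Q)) y + (m.om y).flip (lg (y, Q))).comp (m.R y)

theorem PW.dlg (h : PW m lg δ) (Q y : V) :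
    HasFDerivAt (fun y => lg (y, Q)) (fderiv ℝ (fun y => lg (y, Q)) y) y :=
  ((h.had.c1.comp (f := fun y => (y, Q)) (by fun_prop)).differentiable one_ne_zero y).hasFDerivAt

theorem PW.dl_der (h : PW m lg δ) (Q : V) (z : V × V) (t : ℝ) :
    HasDerivAt (fun s => lg ((m.Z s z).1, Q)) (DL m lg Q (m.Z t z).1 (m.Z t z).2 -
      m.w z t (lg ((m.Z t z).1, Q))) t :=
  ((h.dlg Q _).comp_hasDerivAt t (DNTR.ode1 h.ok z t)).congr_deriv (by
    simp [DL, MF.w])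

theorem PW.dl_rad (h : PW m lg δ) (Q y : V) : DL m lg Q y (lg (y, Q)) = -lg (y, Q) := by
  have h1 := h.dl_der Q (y, lg (y, Q)) 0
  have h2 := ((hasDerivAt_id (0 : ℝ)).const_sub 1).smul (DNWI.vel_deriv h.ok (y, lg (y, Q)) 0)
  have e : (fun s => lg ((m.Z s (y, lg (y, Q))).1, Q)) =
      fun s => (1 - s) • (m.Z s (y, lg (y, Q))).2 := funext fun s => by
    rw [← DNWI.lg_geo h.ok h.jac h.had, h.had.ex]
  rw [e] at h1
  have h3 := h1.unique h2
  simp only [h.ok.zero, id, sub_zero, one_smul, neg_smul] at h3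
  rw [sub_eq_iff_eq_add] at h3
  rw [h3]
  abel

theorem PW.dl_perp (h : PW m lg δ) (Q y e : V) (he : ⟪e, lg (y, Q)⟫ = 0) :
    ⟪DL m lg Q y e, lg (y, Q)⟫ = 0 ∧
      ‖sinh ‖lg (y, Q)‖ • DL m lg Q y e + (‖lg (y, Q)‖ * cosh ‖lg (y, Q)‖) • e‖ ≤
        2 * δ * ‖lg (y, Q)‖ * sinh ‖lg (y, Q)‖ * ‖e‖ := by
  obtain ⟨z, hz⟩ : ∃ z : V × V, z = (y, lg (y, Q)) := ⟨_, rfl⟩
  obtain ⟨ξ, hξ⟩ : ∃ ξ : V × V, ξ = (m.R y e, fderiv ℝ (fun y => lg (y, Q)) y (m.R y e)) :=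
    ⟨_, rfl⟩
  obtain ⟨k, hk⟩ : ∃ k, k = ‖lg (y, Q)‖ := ⟨_, rfl⟩
  have k0 : 0 ≤ k := hk ▸ norm_nonneg _
  have e0 : m.hor z ξ = e := by simp [hz, hξ, MF.hor, h.ok.SR]
  have e1 : m.ver z ξ = DL m lg Q y e := by simp [hz, hξ, MF.ver, DL]
  have e2 : m.J z ξ 1 = 0 := by
    have a := ((DNTR.dZ h.ok 1 (y, lg (y, Q))).comp y
      ((hasFDerivAt_id y).prodMk (h.dlg Q y))).fst
    have b : HasFDerivAt (fun y => (m.Z 1 (y, lg (y, Q))).1) (0 : V →L[ℝ] V) y := by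
      simp only [h.had.ex]
      exact hasFDerivAt_const Q y
    have c := DFunLike.congr_fun (a.unique b) (m.R y e)
    have c' : (fderiv ℝ (m.Z 1) z ξ).1 = 0 := by rw [hz, hξ]; exact c
    simp [MF.J, MF.hor, c']
  have z2 : z.2 = lg (y, Q) := by rw [hz]
  have p0 : ⟪DL m lg Q y e, lg (y, Q)⟫ = 0 := by
    have := DNWI.J_vel h.ok h.jac z ξ 1
    rw [e2, e0, e1, z2, he, inner_zero_left] at this
    linarith
  have pj : ∀ t, ⟪m.J z ξ t, (m.Z t z).2⟫ = 0 := fun t => by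
    rw [DNWI.J_vel h.ok h.jac, e0, e1, z2, he, p0, mul_zero, add_zero]
  refine ⟨p0, ?_⟩
  rw [← hk]
  obtain ⟨u, hu⟩ : ∃ u, u = sinh k • DL m lg Q y e + (k * cosh k) • e := ⟨_, rfl⟩
  rw [← hu]
  obtain ⟨O, O0, -, O1⟩ := h.jac.par z
  have dO : ∀ t, HasDerivAt (fun s => O s u) (0 - m.w z t (O t u)) t := fun t =>
    (O1 u t).congr_deriv (zero_sub _).symm
  have a1 : ∀ t : ℝ, HasDerivAt (fun s : ℝ => k * (1 - s)) (-k) t := fun t => by
    simpa using ((hasDerivAt_id t).const_sub 1).const_mul k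
  have key := DNTR.le_of_der (c := 0) (t := 1) (fun t =>
    (((((a1 t).sinh.mul (cov_inner h.ok z (h.jac.d2 z ξ t) (dO t))).add (((a1 t).cosh.const_mul
      k).mul (cov_inner h.ok z (h.jac.d1 z ξ t) (dO t)))).neg).add ((a1 t).cosh.const_mul
        (2 * δ * k * ‖e‖ * ‖u‖)))) (fun t ht => by
      have b1 := h.err (m.Z t z).1 _ _ (pj t)
      have b2 := DNTR.jac_le h.ok h.jac h.u0 z ξ e2 ht
      rw [DNWI.J_zero h.ok, e0] at b2
      rw [h.jac.norm, z2, ← hk] at b1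
      have b3 := real_inner_le_norm (m.K (m.Z t z).1 (m.J z ξ t) (m.Z t z).2 (m.Z t z).2 +
        k ^ 2 • m.J z ξ t) (O t u)
      rw [(O t).norm_map, inner_add_left, real_inner_smul_left] at b3
      have b4 := b3.trans (mul_le_mul_of_nonneg_right (b1.trans (mul_le_mul_of_nonneg_left b2
        (by have := h.d0; positivity))) (norm_nonneg u))
      have b5 : 0 ≤ sinh (k * (1 - t)) := sinh_nonneg_iff.2 (mul_nonneg k0 (by linarith [ht.2]))
      have b6 := mul_le_mul_of_nonneg_left b4 b5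
      simp only [inner_zero_right, inner_neg_left, add_zero]
      nlinarith) (right_mem_Icc.2 zero_le_one)
  simp only [Pi.add_apply, Pi.neg_apply, Pi.mul_apply, sub_self, mul_zero, sinh_zero, cosh_zero,
    e2, inner_zero_left, sub_zero, mul_one, DNWI.J_zero h.ok, DNWI.J'_zero h.ok, e0, e1, O0,
    zero_mul, add_zero, neg_zero, zero_add] at key
  have e3 : ‖u‖ ^ 2 = sinh k * ⟪DL m lg Q y e, u⟫ + k * cosh k * ⟪e, u⟫ := by
    rw [← real_inner_self_eq_norm_sq]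
    nth_rewrite 1 [hu]
    rw [inner_add_left, real_inner_smul_left, real_inner_smul_left]
  have e4 : cosh k - 1 ≤ sinh k := by
    have := cosh_sub_sinh k
    have := exp_le_one_iff.2 (neg_nonpos.2 k0)
    linarith
  have p : 0 ≤ 2 * δ * k * ‖e‖ := by have := h.d0; positivity
  rcases (norm_nonneg u).eq_or_lt with h0 | h0
  · rw [← h0]
    have := sinh_nonneg_iff.2 k0
    have := h.d0
    positivity
  refine le_of_mul_le_mul_right ?_ h0
  nlinarith [mul_le_mul_of_nonneg_left e4 (mul_nonneg p h0.le)]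

end Pool.Agent.MP_3ee8cb_gt.DZH
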