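import Pool.Agent.MP_3ee8cb_gt.DZH.Gr
import Pool.Agent.MP_3ee8cb_gt.DZ.Spec
import Pool.Agent.MP_3ee8cb_gt.DNJC.Flow

/-! The horizontal derivative of the two point function. -/

namespace Pool.Agent.MP_3ee8cb_gt.DZH

open DN (Dim dm)

variable [Dim]

open DN DZ Set Real Filter Topology
open scoped RealInnerProductSpace

variable {m : MF} {lg : V × V → V} {δ : ℝ} {β : V → ℝ} {ν : V → V}

theorem gq_lim (b : B1 m lg β ν) (y₀ y : V) :
    Tendsto (fun T => exp (β y₀ - T) • gq lg (m.Z T (y₀, ν y₀)).1 y) atTop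
      (𝓝 (exp (β y) • ν y)) := by
  have := ((continuous_exp.tendsto _).comp ((b.lim y₀ y).const_add (β y₀))).smul (b.dir y₀ y)
  rw [add_sub_cancel] at this
  refine this.congr fun T => ?_
  rw [gq, un, smul_smul, smul_smul, Function.comp_apply, div_eq_mul_inv, ← mul_assoc, ← exp_add]
  congr 3
  ring

theorem c_pp (v : V) : Continuous (pp v) := by
  unfold pp
  fun_prop

theorem one (h : PW m lg δ) (i : IsB m lg β ν) (b : B1 m lg β ν) {z : V × V} (hz : ‖z.2‖ = 1)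
    {O : ℝ → V ≃ₗᵢ[ℝ] V} (O0 : ∀ a, O 0 a = a)
    (O1 : ∀ a t, HasDerivAt (fun s => O s a) (-m.w z t (O t a)) t) :
    ‖pp (m.Z 1 z).2 (exp (β (m.Z 1 z).1) • ν (m.Z 1 z).1) - O 1 (pp z.2 (exp (β z.1) • ν z.1))‖ ≤
      exp 4 * (2 * δ) * ‖pp z.2 (exp (β z.1) • ν z.1)‖ := by
  have l0 := ((c_pp z.2).tendsto _).comp (gq_lim b z.1 z.1)
  have l1 := ((c_pp (m.Z 1 z).2).tendsto _).comp (gq_lim b z.1 (m.Z 1 z).1)
  have l2 : Tendsto (fun T : ℝ => 1 / sinh (T - 1)) atTop (𝓝 0) := by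
    refine Tendsto.div_atTop tendsto_const_nhds (tendsto_atTop_mono' _ ?_
      (tendsto_atTop_add_const_right _ (-1) tendsto_id))
    filter_upwards [eventually_ge_atTop 1] with T hT using self_le_sinh_iff.2 (sub_nonneg.2 hT)
  have l3 := ((l2.const_add (2 * δ)).const_mul (exp 4)).mul l0.norm
  rw [add_zero] at l3
  refine le_of_tendsto_of_tendsto (l1.sub (((O 1).continuous.tendsto _).comp l0)).norm l3 ?_
  filter_upwards [eventually_ge_atTop 2] with T hT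
  have k := h.gq_one (m.Z T (z.1, ν z.1)).1 hz (k₀ := T - 1) (by linarith) (by
    have := DNWI.lg_ray h.jac h.had T (z.1, ν z.1)
    rw [this, norm_smul, i.unit, mul_one, norm_eq_abs, abs_of_nonneg (by linarith)]
    linarith) O0 O1
  simp only [Function.comp_apply, pp_smul, map_smul, ← smul_sub, norm_smul]
  nlinarith [mul_le_mul_of_nonneg_left k (norm_nonneg (exp (β z.1 - T)))]

/-- The exponential of the Busemann function after unit time. -/
noncomputable def e1 (m : MF) (β : V → ℝ) (z : V × V) : ℝ := exp (β (m.Z 1 z).1)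

theorem e1_der (h : PW m lg δ) (i : IsB m lg β ν) (b : B1 m lg β ν) {z : V × V}
    (hz : ‖z.2‖ = 1) : ∃ D : V × V →L[ℝ] ℝ, HasFDerivAt (e1 m β) D z ∧
      D (m.vf z) = -(e1 m β z * ⟪ν (m.Z 1 z).1, (m.Z 1 z).2⟫) ∧
      ∀ ξ, m.ver z ξ = 0 → ⟪m.hor z ξ, z.2⟫ = 0 →
        |D ξ + cosh 1 * ⟪pp z.2 (exp (β z.1) • ν z.1), m.hor z ξ⟫| ≤
          2 * exp 4 * (3 + 2 * exp 4) * δ * ‖pp z.2 (exp (β z.1) • ν z.1)‖ * ‖m.hor z ξ‖ := by
  have d := ((b.der _).comp z (DNTR.dZ h.ok 1 z).fst).exp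
  refine ⟨_, d, ?_, fun ξ hv hp => ?_⟩
  · have : m.S (m.Z 1 z).1 (fderiv ℝ (m.Z 1) z (m.vf z)).1 = (m.Z 1 z).2 := by
      rw [DNJC.dZ_vf h.ok]
      exact h.ok.SR _ _
    simp [e1, this]
  obtain ⟨O, O0, -, O1⟩ := h.jac.par z
  obtain ⟨j1, j2⟩ := h.jac_one hz hv hp O0 O1
  have k := one h i b hz O0 O1
  have e : ∀ r : ℝ, r = -⟪exp (β (m.Z 1 z).1) • ν (m.Z 1 z).1, m.J z ξ 1⟫ →
      |r + cosh 1 * ⟪pp z.2 (exp (β z.1) • ν z.1), m.hor z ξ⟫| ≤
        2 * exp 4 * (3 + 2 * exp 4) * δ * ‖pp z.2 (exp (β z.1) • ν z.1)‖ * ‖m.hor z ξ‖ := by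
    rintro _ rfl
    rw [← pp_inner j1, ← (O 1).inner_map_map (pp z.2 _)]
    have n1 := (O 1).norm_map (pp z.2 (exp (β z.1) • ν z.1))
    have n2 := (O 1).norm_map (m.hor z ξ)
    rw [← n1] at k ⊢
    rw [← n2] at j2 ⊢
    generalize pp (m.Z 1 z).2 _ = x at k ⊢
    generalize O 1 (pp z.2 _) = x₀ at k ⊢
    generalize O 1 (m.hor z ξ) = α at j2 ⊢
    generalize m.J z ξ 1 = j at j2 ⊢
    have c2 : cosh 1 ≤ 2 := by
      have := exp_one_lt_d9
      have := exp_neg_one_lt_d9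
      rw [cosh_eq]
      linarith
    have a0 : ‖j‖ ≤ (2 + 2 * exp 4) * ‖α‖ := by
      have := norm_add_le (j - cosh 1 • α) (cosh 1 • α)
      rw [sub_add_cancel, norm_smul, norm_eq_abs, abs_of_pos (cosh_pos 1)] at this
      nlinarith [mul_le_mul_of_nonneg_right c2 (norm_nonneg α), mul_le_mul_of_nonneg_left h.d1
        (by positivity : 0 ≤ 2 * exp 4 * ‖α‖)]
    have a1 := abs_real_inner_le_norm (x - x₀) j
    have a2 := abs_real_inner_le_norm x₀ (j - cosh 1 • α)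
    have a3 := mul_le_mul k a0 (norm_nonneg _) (by have := h.d0; positivity)
    have a4 := mul_le_mul_of_nonneg_left j2 (norm_nonneg x₀)
    have e : -⟪x, j⟫ + cosh 1 * ⟪x₀, α⟫ = -(⟪x - x₀, j⟫ + ⟪x₀, j - cosh 1 • α⟫) := by
      rw [inner_sub_left, inner_sub_right, real_inner_smul_right]
      ring
    rw [e, abs_neg]
    refine (abs_add_le _ _).trans ?_
    nlinarith
  exact e _ (by simp [MF.J, MF.hor, real_inner_smul_left])

theorem two_pt (h : PW m lg δ) (i : IsB m lg β ν) {z : V × V} (hz : ‖z.2‖ = 1) :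
    exp 1 * (exp (β z.1) * (1 - ⟪ν z.1, z.2⟫)) ≤
        e1 m β z * (1 - ⟪ν (m.Z 1 z).1, (m.Z 1 z).2⟫) ∧
      e1 m β z * (1 + ⟪ν (m.Z 1 z).1, (m.Z 1 z).2⟫) ≤
        exp (-1) * (exp (β z.1) * (1 + ⟪ν z.1, z.2⟫)) := by
  have a1 := i.lb z.1 z.2 1 hz
  have a2 := i.lb (m.Z 1 z).1 (m.Z 1 z).2 (-1) (by rw [h.jac.norm, hz])
  have e : m.Z (-1) ((m.Z 1 z).1, (m.Z 1 z).2) = z := by
    rw [Prod.mk.eta, ← h.ok.add, neg_add_cancel, h.ok.zero]
  rw [e, cosh_neg, sinh_neg] at a2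
  have s : 0 < sinh 1 := sinh_pos_iff.2 one_pos
  have c1 := cosh_add_sinh 1
  have c2 := cosh_sub_sinh 1
  have c3 := cosh_sq 1
  unfold e1
  rw [← c1, ← c2]
  constructor <;> refine le_of_mul_le_mul_left ?_ s
  · have := mul_le_mul_of_nonneg_left a1 (by positivity : 0 ≤ cosh 1 + sinh 1)
    have e2 : exp (β z.1) * (cosh 1 ^ 2 - sinh 1 ^ 2 - 1) = 0 := by rw [c3]; ring
    nlinarith
  · have := mul_le_mul_of_nonneg_left a1 (by rw [c2]; positivity : 0 ≤ cosh 1 - sinh 1)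
    have e2 : exp (β z.1) * (cosh 1 ^ 2 - sinh 1 ^ 2 - 1) = 0 := by rw [c3]; ring
    nlinarith

/-- The flip. -/
noncomputable def fl : V × V →L[ℝ] V × V :=
  (ContinuousLinearMap.fst ℝ V V).prod (-ContinuousLinearMap.snd ℝ V V)

/-- The horizontal lift. -/
noncomputable def lf (m : MF) (z w : V) : V →L[ℝ] V × V :=
  (m.R z).prod (-((m.om z).flip w).comp (m.R z))

theorem sH : SH := by
  refine ⟨4 * exp 4 * (3 + 2 * exp 4), by positivity, fun δ m lg β ν d0 d1 y u1 dn i b z w hw => ?_⟩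
  have h : PW m lg δ := ⟨y.ok, y.jac, y.had, d0, d1, y.up, u1, dn⟩
  have hw' : ‖((z, -w) : V × V).2‖ = 1 := by rw [norm_neg, hw]
  obtain ⟨D₁, a1, a2, a3⟩ := e1_der h i b (z := (z, w)) hw
  obtain ⟨D₂, b1, b2, b3⟩ := e1_der h i b hw'
  have eg : gp m β = fun q => e1 m β (fl q) - e1 m β q := funext fun q => by
    have : fl q = (q.1, -q.2) := rfl
    rw [this, e1, DNWI.flipZ h.jac]
    rfl
  have hD : HasFDerivAt (gp m β) (D₂.comp fl - D₁) (z, w) := by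
    have b1' : HasFDerivAt (e1 m β) D₂ (fl (z, w)) := b1
    rw [eg]
    exact (b1'.comp (z, w) fl.hasFDerivAt).sub a1
  have l1 : ∀ w a, m.hor (z, w) (lf m z w a) = a := fun w a => h.ok.SR z a
  have l2 : ∀ w a, m.ver (z, w) (lf m z w a) = 0 := fun w a => by simp [MF.ver, lf]
  have l3 : ∀ a, fl (lf m z w a) = lf m z (-w) a := fun a => by simp [fl, lf]
  have l4 : ∀ w, lf m z w w = m.vf (z, w) := fun w => rfl
  obtain ⟨k, hk⟩ : ∃ k : V, ∀ a, ⟪k, a⟫ = D₁ (lf m z w a) - D₂ (lf m z (-w) a) :=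
    ⟨(InnerProductSpace.toDual ℝ V).symm (D₁.comp (lf m z w) - D₂.comp (lf m z (-w))),
      fun a => by rw [InnerProductSpace.toDual_symm_apply]; rfl⟩
  have p := pp_perp hw k
  refine ⟨_, ⟪k, w⟫, pp w k, hD, p, fun ξ hξ => ?_, ?_, ?_⟩
  · have e : ξ = lf m z w (m.hor (z, w) ξ) := by
      have e1 : m.R z (m.hor (z, w) ξ) = ξ.1 := h.ok.RS z ξ.1
      refine Prod.ext e1.symm ?_
      change ξ.2 = -m.om z (m.R z (m.hor (z, w) ξ)) w
      rw [e1]
      exact eq_neg_of_add_eq_zero_left hξ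
    rw [pp, add_sub_cancel, hk]
    nth_rewrite 1 [e]
    rw [sub_apply, ContinuousLinearMap.comp_apply, l3, neg_sub]
  · have e : D₂ (lf m z (-w) w) = -D₂ (m.vf (z, -w)) := by rw [← l4, map_neg, map_neg, neg_neg]
    have t1 := (two_pt h i (z := (z, w)) hw).1
    have t2 := (two_pt h i hw').2
    have e2 : fl (z, w) = (z, -w) := rfl
    rw [hk, l4, a2, e, b2, eg, sinh_eq]
    simp only [inner_neg_right, e2] at t1 t2 ⊢
    linarith
  · have a4 := a3 _ (l2 w (pp w k)) (by rw [l1]; exact p)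
    have b4 := b3 _ (l2 (-w) (pp w k)) (by rw [l1, inner_neg_right, p, neg_zero])
    have e : ∀ x, pp (-w) x = pp w x := fun x => by simp [pp]
    simp only [l1, e] at a4 b4
    have e2 : ‖pp w k‖ ^ 2 = ⟪k, pp w k⟫ := by
      rw [← pp_inner p, real_inner_self_eq_norm_sq]
    have e3 : ‖pp w (exp (β z) • ν z)‖ ^ 2 = exp (β z) ^ 2 * (1 - ⟪ν z, w⟫ ^ 2) := by
      rw [pp_smul, norm_smul, mul_pow, pp_sq hw, i.unit, norm_eq_abs, sq_abs, one_pow]
    rw [hk] at e2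
    rw [mul_pow, mul_assoc _ (exp (β z) ^ 2), ← e3, ← mul_pow]
    refine pow_le_pow_left₀ (norm_nonneg _) ?_ 2
    rcases (norm_nonneg (pp w k)).eq_or_lt with h0 | h0
    · rw [← h0]
      positivity
    refine le_of_mul_le_mul_right ?_ h0
    nlinarith [(abs_le.1 a4).2, (abs_le.1 b4).1]

end Pool.Agent.MP_3ee8cb_gt.DZH
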