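import Pool.Agent.MP_3ee8cb_gt.DZH.Jac

/-! The gradient of the exponential of the distance along a geodesic. -/

namespace Pool.Agent.MP_3ee8cb_gt.DZH

open DN (Dim dm)

variable [Dim]

open DN Set Real
open scoped RealInnerProductSpace

variable {m : MF} {lg : V × V → V} {δ : ℝ}

theorem PW.dist_der (h : PW m lg δ) (Q : V) (z : V × V) (t : ℝ)
    (h0 : lg ((m.Z t z).1, Q) ≠ 0) : HasDerivAt (fun s => ‖lg ((m.Z s z).1, Q)‖)
      (-(⟪lg ((m.Z t z).1, Q), (m.Z t z).2⟫ / ‖lg ((m.Z t z).1, Q)‖)) t := by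
  have d1 : Differentiable ℝ fun q => ‖lg q‖ ^ 2 / 2 :=
    ((h.had.c1.norm_sq ℝ).div_const (2 : ℝ)).differentiable one_ne_zero
  have d2 := (d1 ((m.Z t z).1, Q)).hasFDerivAt.comp_hasDerivAt t
    ((DNTR.ode1 h.ok z t).prodMk (hasDerivAt_const t Q))
  rw [h.had.grad, h.ok.SR, map_zero, inner_zero_right, sub_zero] at d2
  have p := norm_pos_iff.2 h0
  have d3 := (d2.const_mul 2).sqrt (by simp only [Function.comp_apply]; positivity)
  have e : ∀ q : V × V, √(2 * (‖lg q‖ ^ 2 / 2)) = ‖lg q‖ := fun q => by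
    rw [mul_div_cancel₀ _ two_ne_zero, sqrt_sq (norm_nonneg _)]
  simp only [Function.comp_apply, e] at d3
  exact d3.congr_deriv (by field_simp)

omit [Dim] in
theorem coth_le {k k₀ : ℝ} (h0 : 0 < k₀) (hk : k₀ ≤ k) : cosh k - sinh k ≤ 1 / sinh k₀ * sinh k := by
  have p : 0 < sinh k₀ := sinh_pos_iff.2 h0
  rw [cosh_sub_sinh]
  refine (exp_le_one_iff.2 (by linarith)).trans ?_
  rw [one_div, inv_mul_eq_div, one_le_div p]
  exact sinh_le_sinh.2 hk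

/-- The part of `x` normal to the unit vector `v`. -/
noncomputable def pp (v x : V) : V := x - ⟪x, v⟫ • v

theorem pp_sq {v : V} (hv : ‖v‖ = 1) (x : V) : ‖pp v x‖ ^ 2 = ‖x‖ ^ 2 - ⟪x, v⟫ ^ 2 := by
  rw [pp, norm_sub_sq_real, real_inner_smul_right, norm_smul, hv, mul_one, norm_eq_abs, sq_abs]
  ring

theorem pp_le {v : V} (hv : ‖v‖ = 1) (x : V) : ‖pp v x‖ ≤ ‖x‖ :=
  (abs_le_of_sq_le_sq' (by rw [pp_sq hv]; nlinarith [sq_nonneg ⟪x, v⟫]) (norm_nonneg _)).2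

theorem pp_smul (v x : V) (r : ℝ) : pp v (r • x) = r • pp v x := by
  rw [pp, pp, real_inner_smul_left]
  module

theorem pp_inner {v u : V} (h : ⟪u, v⟫ = 0) (x : V) : ⟪pp v x, u⟫ = ⟪x, u⟫ := by
  rw [pp, inner_sub_left, real_inner_smul_left, real_inner_comm u v, h, mul_zero, sub_zero]

theorem pp_perp {v : V} (hv : ‖v‖ = 1) (x : V) : ⟪pp v x, v⟫ = 0 := by
  rw [pp, inner_sub_left, real_inner_smul_left, real_inner_self_eq_norm_sq, hv]
  ring

/-- The gradient field, up to sign. -/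
noncomputable def gq (lg : V × V → V) (Q y : V) : V :=
  (exp ‖lg (y, Q)‖ / ‖lg (y, Q)‖) • lg (y, Q)

theorem PW.gq_der (h : PW m lg δ) (Q : V) {z : V × V} (hz : ‖z.2‖ = 1) {t k₀ : ℝ} (h0 : 0 < k₀)
    (hk : k₀ ≤ ‖lg ((m.Z t z).1, Q)‖) : ∃ F : V,
      HasDerivAt (fun s => pp (m.Z s z).2 (gq lg Q (m.Z s z).1))
        (F - m.w z t (pp (m.Z t z).2 (gq lg Q (m.Z t z).1))) t ∧
      ‖F‖ ≤ (2 * δ + 1 / sinh k₀) * ‖pp (m.Z t z).2 (gq lg Q (m.Z t z).1)‖ := by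
  have kp : 0 < ‖lg ((m.Z t z).1, Q)‖ := h0.trans_le hk
  have d1 := h.dist_der Q z t (norm_pos_iff.1 kp)
  have d2 := ((d1.exp.div d1 kp.ne').smul (h.dl_der Q z t))
  have dv : HasDerivAt (fun s => (m.Z s z).2) (0 - m.w z t (m.Z t z).2) t :=
    (DNWI.vel_deriv h.ok z t).congr_deriv (zero_sub _).symm
  have hv : ‖(m.Z t z).2‖ = 1 := by rw [h.jac.norm, hz]
  have r := h.dl_rad Q (m.Z t z).1
  have e := fun e => h.dl_perp Q (m.Z t z).1 e
  unfold gq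
  generalize hD : DL m lg Q (m.Z t z).1 = D at *
  obtain ⟨L, hL⟩ : ∃ L, L = lg ((m.Z t z).1, Q) := ⟨_, rfl⟩
  obtain ⟨v, hv'⟩ : ∃ v, v = (m.Z t z).2 := ⟨_, rfl⟩
  obtain ⟨G, hG⟩ : ∃ G, G = (exp ‖L‖ / ‖L‖) • D v + ((exp ‖L‖ * -(⟪L, v⟫ / ‖L‖) * ‖L‖ -
    exp ‖L‖ * -(⟪L, v⟫ / ‖L‖)) / ‖L‖ ^ 2) • L := ⟨_, rfl⟩
  have d3 : HasDerivAt (fun s => (exp ‖lg ((m.Z s z).1, Q)‖ / ‖lg ((m.Z s z).1, Q)‖) •
      lg ((m.Z s z).1, Q)) (G - m.w z t ((exp ‖lg ((m.Z t z).1, Q)‖ / ‖lg ((m.Z t z).1, Q)‖) •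
      lg ((m.Z t z).1, Q))) t := d2.congr_deriv (by
    simp only [hG, hL, hv', map_smul, Pi.div_apply]
    module)
  refine ⟨pp v G, (d3.sub ((cov_inner h.ok z d3 dv).smul dv)).congr_deriv ?_, ?_⟩
  · simp only [pp, hv', map_sub, map_smul, inner_zero_right, add_zero]
    module
  rw [← hL] at kp hk r e ⊢
  rw [← hv'] at hv ⊢
  obtain ⟨k, hk'⟩ : ∃ k, k = ‖L‖ := ⟨_, rfl⟩
  obtain ⟨c, hc⟩ : ∃ c, c = ⟪L, v⟫ / k ^ 2 := ⟨_, rfl⟩
  rw [← hk'] at kp hk e hG ⊢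
  have sp : 0 < sinh k := sinh_pos_iff.2 kp
  have p1 : ⟪v - c • L, L⟫ = 0 := by
    rw [inner_sub_left, real_inner_smul_left, real_inner_self_eq_norm_sq, ← hk', hc,
      real_inner_comm]
    field_simp
    ring
  have e1 := (e _ p1).2
  obtain ⟨E, hE⟩ : ∃ E, E = sinh k • D (v - c • L) + (k * cosh k) • (v - c • L) := ⟨_, rfl⟩
  rw [← hE] at e1
  have e2 : G = (-exp k) • v + (exp k / sinh k) • (k⁻¹ • E - (cosh k - sinh k) • (v - c • L)) := by
    rw [hG, hE, map_sub, map_smul, r, hc]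
    match_scalars <;> field_simp <;> ring
  have e3 : pp v G = pp v ((exp k / sinh k) • (k⁻¹ • E - (cosh k - sinh k) • (v - c • L))) := by
    rw [e2, pp, pp, inner_add_left, real_inner_smul_left v, real_inner_self_eq_norm_sq, hv]
    module
  have e4 : k * ‖v - c • L‖ = ‖pp v L‖ := by
    refine (sq_eq_sq₀ (by positivity) (norm_nonneg _)).1 ?_
    rw [pp_sq hv, mul_pow, norm_sub_sq_real, real_inner_smul_right, norm_smul, hv, ← hk', mul_pow,
      norm_eq_abs, sq_abs, hc, real_inner_comm]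
    field_simp
    ring
  have e5 : 0 ≤ cosh k - sinh k := by rw [cosh_sub_sinh]; positivity
  have e6 : ‖k⁻¹ • E - (cosh k - sinh k) • (v - c • L)‖ ≤
      (2 * δ + 1 / sinh k₀) * sinh k * ‖v - c • L‖ := by
    refine (norm_sub_le _ _).trans ?_
    rw [norm_smul, norm_smul, norm_eq_abs, norm_eq_abs, abs_of_nonneg e5, abs_of_pos (inv_pos.2 kp)]
    have a1 : k⁻¹ * ‖E‖ ≤ 2 * δ * sinh k * ‖v - c • L‖ := by
      rw [inv_mul_le_iff₀ kp]
      linarith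
    nlinarith [mul_le_mul_of_nonneg_right (coth_le h0 hk) (norm_nonneg (v - c • L))]
  rw [e3, pp_smul v L, norm_smul (exp k / k), ← e4]
  refine (pp_le hv _).trans ?_
  rw [norm_smul, norm_eq_abs, norm_eq_abs, abs_of_pos (by positivity), abs_of_pos (by positivity)]
  refine (mul_le_mul_of_nonneg_left e6 (by positivity)).trans_eq ?_
  field_simp

theorem PW.gq_one (h : PW m lg δ) (Q : V) {z : V × V} (hz : ‖z.2‖ = 1) {k₀ : ℝ} (h0 : 1 ≤ k₀)
    (hk : k₀ + 1 ≤ ‖lg (z.1, Q)‖) {O : ℝ → V ≃ₗᵢ[ℝ] V} (O0 : ∀ a, O 0 a = a)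
    (O1 : ∀ a t, HasDerivAt (fun s => O s a) (-m.w z t (O t a)) t) :
    ‖pp (m.Z 1 z).2 (gq lg Q (m.Z 1 z).1) - O 1 (pp z.2 (gq lg Q z.1))‖ ≤
      exp 4 * (2 * δ + 1 / sinh k₀) * ‖pp z.2 (gq lg Q z.1)‖ := by
  obtain ⟨η, hη⟩ : ∃ η, η = 2 * δ + 1 / sinh k₀ := ⟨_, rfl⟩
  have s1 : 1 ≤ sinh k₀ := h0.trans (self_le_sinh_iff.2 (by linarith))
  have η0 : 0 ≤ η := by have := h.d0; rw [hη]; positivity
  have η3 : η ≤ 3 := by
    have := (div_le_one (by linarith : 0 < sinh k₀)).2 s1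
    linarith [h.d1]
  obtain ⟨x, hx⟩ : ∃ x : ℝ → V, x = fun s => pp (m.Z s z).2 (gq lg Q (m.Z s z).1) := ⟨_, rfl⟩
  have key : ∀ t ∈ Icc (0 : ℝ) 1, ∃ F : V, HasDerivAt x (F - m.w z t (x t)) t ∧
      ‖F‖ ≤ η * ‖x t‖ := fun t ht => by
    have a1 := h.had.tri z.1 (m.Z t z).1 Q
    rw [DNWI.lg_ray h.jac h.had, norm_smul, hz, mul_one, norm_eq_abs, abs_of_nonneg ht.1] at a1
    rw [hx, hη]
    exact h.gq_der Q hz (by linarith) (by linarith [ht.2])
  choose! F hF using key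
  have x0 : x 0 = pp z.2 (gq lg Q z.1) := by simp only [hx, h.ok.zero]
  have gr : ∀ {N N' : ℝ → ℝ} {c φ : ℝ}, (∀ s ∈ Icc (0 : ℝ) 1, HasDerivAt N (N' s) s) → 0 ≤ c →
      0 ≤ φ → 0 ≤ N 0 → (∀ s ∈ Icc (0 : ℝ) 1, N' s ≤ c * N s + φ) → ∀ t ∈ Icc (0 : ℝ) 1,
      N t ≤ exp c * (N 0 + φ) := fun {N N' c φ} hd hc hφ hN hl t ht => by
    have he : ∀ s, HasDerivAt (fun s => exp (-(c * s))) (exp (-(c * s)) * -c) s :=
      fun s => by simpa using ((hasDerivAt_id s).const_mul c).neg.exp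
    have h1 := (convex_Icc (0 : ℝ) 1).image_sub_le_mul_sub_of_deriv_le (C := φ)
      (f := fun s => N s * exp (-(c * s)))
      (fun s hs => ((hd s hs).mul (he s)).continuousAt.continuousWithinAt)
      (fun s hs => ((hd s (interior_subset hs)).mul (he s)).differentiableAt.differentiableWithinAt)
      (fun s hs => by
        have hs := interior_subset hs
        refine ((hd s hs).mul (he s)).deriv.trans_le ?_
        have e1 : exp (-(c * s)) ≤ 1 := exp_le_one_iff.2 (by nlinarith [hs.1])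
        nlinarith [mul_le_mul_of_nonneg_right (hl s hs) (exp_pos (-(c * s))).le,
          mul_le_mul_of_nonneg_left e1 hφ]) 0 (left_mem_Icc.2 zero_le_one) t ht ht.1
    simp only [mul_zero, neg_zero, exp_zero, mul_one, sub_zero] at h1
    have e2 : exp (c * t) ≤ exp c := exp_le_exp.2 (by nlinarith [ht.2])
    have e3 : N t = exp (c * t) * (N t * exp (-(c * t))) := by
      rw [mul_left_comm, ← exp_add, add_neg_cancel, exp_zero, mul_one]
    have e4 : φ * t ≤ φ := by nlinarith [ht.2]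
    rw [e3]
    exact (mul_le_mul_of_nonneg_left (by linarith) (exp_pos _).le).trans
      (mul_le_mul_of_nonneg_right e2 (by linarith : 0 ≤ N 0 + φ))
  have b1 := gr (c := 6) (φ := 0) (fun s hs => cov_sq h.ok z (hF s hs).1) (by norm_num) le_rfl
    (by positivity) fun s hs => by
      have a1 := real_inner_le_norm (x s) (F s)
      nlinarith [mul_le_mul_of_nonneg_left ((hF s hs).2.trans
        (mul_le_mul_of_nonneg_right η3 (norm_nonneg _))) (norm_nonneg (x s))]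
  have b2 := gr (c := 1) (φ := η ^ 2 * (exp 6 * ‖x 0‖ ^ 2)) (fun s hs => cov_sq h.ok z
    (x := fun s => x s - O s (x 0)) (F := F s) (((hF s hs).1.sub (O1 _ s)).congr_deriv (by
      rw [map_sub]
      abel))) zero_le_one (by positivity) (by positivity) (fun s hs => by
      have a1 := real_inner_le_norm (x s - O s (x 0)) (F s)
      have a2 := pow_le_pow_left₀ (norm_nonneg _) (hF s hs).2 2
      have a3 := mul_le_mul_of_nonneg_left (b1 s hs) (sq_nonneg η)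
      nlinarith [sq_nonneg (‖x s - O s (x 0)‖ - ‖F s‖)]) 1 (right_mem_Icc.2 zero_le_one)
  rw [O0, sub_self, norm_zero] at b2
  rw [← x0, ← hη]
  have e1 : pp (m.Z 1 z).2 (gq lg Q (m.Z 1 z).1) = x 1 := by rw [hx]
  rw [e1]
  refine abs_le_of_sq_le_sq' (b2.trans ?_) (by positivity) |>.2
  have e2 : exp 1 * exp 6 ≤ exp 4 ^ 2 := by
    rw [← exp_add, sq, ← exp_add]
    exact exp_le_exp.2 (by norm_num)
  nlinarith [mul_le_mul_of_nonneg_right e2 (by positivity : 0 ≤ η ^ 2 * ‖x 0‖ ^ 2)]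

end Pool.Agent.MP_3ee8cb_gt.DZH
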